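import Pool.Agent.Helper74.DI.St

/-! # Project DI, module DIV: numbers with many divisors -/

set_option autoImplicit false

namespace Pool.Agent.Helper97.DI

open Pool.Agent.Helper74 Pool.Agent.Helper74.DI

private theorem div_cb (k : ℕ) : 2 ^ k ≤ k.centralBinom := by
  induction k with
  | zero => simp
  | succ n ih =>
    have h1 := Nat.succ_mul_centralBinom_succ n
    have h2 : (n + 1) * 2 ^ (n + 1) ≤ (n + 1) * (n + 1).centralBinom := by
      rw [h1, pow_succ]
      calc (n + 1) * (2 ^ n * 2) = 2 * (n + 1) * 2 ^ n := by ring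
        _ ≤ 2 * (2 * n + 1) * n.centralBinom := Nat.mul_le_mul (by omega) ih
    exact Nat.le_of_mul_le_mul_left h2 (Nat.succ_pos n)

theorem hDIV : StDIV := by
  intro k D hD hlt
  by_contra hne
  have hd0 : D.natAbs ≠ 0 := Int.natAbs_ne_zero.mpr hne
  have h1 : k.centralBinom ∣ D.natAbs := by
    rw [← Nat.factorization_prime_le_iff_dvd (Nat.centralBinom_ne_zero k) hd0]
    intro p hp
    rcases Nat.eq_zero_or_pos k with hk | hk
    · subst hk
      simp
    rw [← hp.pow_dvd_iff_le_factorization hd0]
    have h2 : p ^ (Nat.factorization k.centralBinom p) ≤ 2 * k := by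
      rw [Nat.centralBinom_eq_two_mul_choose]
      exact Nat.pow_factorization_choose_le (by omega)
    have h3 := hD (p ^ (Nat.factorization k.centralBinom p)) (Nat.pos_of_ne_zero
      (pow_ne_zero _ hp.ne_zero)) h2
    exact Int.natCast_dvd.mp h3
  have h4 := Nat.le_of_dvd (Nat.pos_of_ne_zero hd0) h1
  have h5 := (div_cb k).trans h4
  have h6 : |D| = (D.natAbs : ℤ) := (Int.natCast_natAbs D).symm
  rw [h6] at hlt
  have h7 : D.natAbs < 2 ^ k := by exact_mod_cast hlt
  omega

end Pool.Agent.Helper97.DI
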